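import Pool.Agent.Lib.MP_6ff0c5_lc.PT.Int

/-!
MP_6ff0c5_lc: more integer arithmetic in the typed polynomial time calculus (sign and absolute
value, maximum, minimum, sums of lists of integers).
-/

set_option autoImplicit false
set_option linter.unusedSectionVars false

namespace Pool.Agent.Lib.MP_6ff0c5_lc.PTA

open Pool.Agent.Lib.MP_20e1d9_lc (PT PT.of_eq PT.of_word PT.size)
open Pool.Agent.Lib.MP_20e1d9_lc.PL
open Pool.Agent.Lib.PLib
open Pool.Agent.Lib.MP_9c2350_lc

variable {α β γ : Type} [Enc α] [Enc β] [Enc γ]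

/-- An integer from a sign (`true` = negative) and an absolute value. -/
def mkZ (s : Bool) (n : ℕ) : ℤ := if s then -(n : ℤ) else n

@[fun_prop]
theorem mkZPT {s : α → Bool} {f : α → ℕ} (hs : PT s) (hf : PT f) :
    PT (fun x => mkZ (s x) (f x)) := by
  apply of_zparts
  have h : PT fun x => (f x, s x && !(decide (f x = 0))) := by fun_prop
  refine h.of_eq fun x => ?_
  unfold mkZ
  cases s x
  · refine Prod.ext ?_ ?_
    · simp
    · simp
  · refine Prod.ext ?_ ?_
    · simp
    · by_cases h0 : f x = 0
      · simp [h0]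
      · have h1 : (0 : ℤ) < f x := by omega
        have h2 : -(f x : ℤ) < 0 := by omega
        simp [h0]
        omega

@[fun_prop]
theorem maxZ {f g : α → ℤ} (hf : PT f) (hg : PT g) : PT (fun x => max (f x) (g x)) := by
  have h : PT fun x => if f x ≤ g x then g x else f x := by fun_prop
  exact h.of_eq fun x => (max_def _ _).symm

@[fun_prop]
theorem minZ {f g : α → ℤ} (hf : PT f) (hg : PT g) : PT (fun x => min (f x) (g x)) := by
  have h : PT fun x => if f x ≤ g x then f x else g x := by fun_prop
  exact h.of_eq fun x => (min_def _ _).symm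

@[fun_prop]
theorem absZ {f : α → ℤ} (hf : PT f) : PT (fun x => |f x|) := by
  have h : PT fun x => ((f x).natAbs : ℤ) := by fun_prop
  exact h.of_eq fun x => (Int.abs_eq_natAbs _).symm

@[fun_prop]
theorem signZ {f : α → ℤ} (hf : PT f) : PT (fun x => (f x).sign) := by
  have h : PT fun x => if f x < 0 then (-1 : ℤ) else if f x = 0 then 0 else 1 := by fun_prop
  refine h.of_eq fun x => ?_
  rcases lt_trichotomy (f x) 0 with h1 | h1 | h1
  · rw [if_pos h1, Int.sign_eq_neg_one_of_neg h1]
  · rw [h1]
    rfl
  · rw [if_neg (not_lt.2 h1.le), if_neg h1.ne', Int.sign_eq_one_of_pos h1]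

/-- Sums of lists of integers. -/
@[fun_prop]
theorem sumZ {l : α → List ℤ} (hl : PT l) : PT (fun x => (l x).sum) := by
  have h1 : PT fun x => ((l x).map fun z => z.toNat).sum := by
    refine sumN (map (f := fun (_ : α) (z : ℤ) => z.toNat) hl ?_)
    exact toNatZ (f := fun p : α × ℤ => p.2) (by fun_prop)
  have h2 : PT fun x => ((l x).map fun z => (-z).toNat).sum := by
    refine sumN (map (f := fun (_ : α) (z : ℤ) => (-z).toNat) hl ?_)
    exact toNatZ (f := fun p : α × ℤ => -p.2) (by fun_prop)
  have h : PT fun x => ((((l x).map fun z => z.toNat).sum : ℕ) : ℤ) -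
      ((((l x).map fun z => (-z).toNat).sum : ℕ) : ℤ) := subNatZ h1 h2
  refine h.of_eq fun x => ?_
  induction l x with
  | nil => simp
  | cons a t ih =>
    rw [List.map_cons, List.map_cons, List.sum_cons, List.sum_cons, List.sum_cons, ← ih]
    push_cast
    omega

end Pool.Agent.Lib.MP_6ff0c5_lc.PTA
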